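import Mathlib

set_option autoImplicit false

/-!
# Flarb operations do not have constant amortized pointer-change cost
-/

namespace Pool.Agent.Results.MP_5c307f_lc.NotConstant

/-- A binary tree whose nodes are named by natural numbers; `nil` is the empty tree, and
`node l x r` has root `x`, left subtree `l` and right subtree `r`. -/
inductive BT
  | nil
  | node (l : BT) (x : ℕ) (r : BT)

open BT

/-- The nodes in symmetric order. -/
def inorder : BT → List ℕ
  | nil => []
  | node l x r => inorder l ++ x :: inorder r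

/-- The relationship from the node `x` to the root of `t`, if `t` is nonempty
(`false`: left child, `true`: right child). -/
def link (x : ℕ) (side : Bool) : BT → Finset (ℕ × Bool × ℕ)
  | nil => ∅
  | node _ y _ => {(x, side, y)}

/-- All parent/left-child and parent/right-child relationships `(parent, side, child)` of a
tree. -/
def ptrs : BT → Finset (ℕ × Bool × ℕ)
  | nil => ∅
  | node l x r => ptrs l ∪ ptrs r ∪ link x false l ∪ link x true r

/-- `S` is an anchored subtree of `T`: a set of nodes of `T` containing the root (if there is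
one) and connected, that is, closed under taking parents. -/
def IsAnchored (S : Finset ℕ) (T : BT) : Prop :=
  S ⊆ (inorder T).toFinset ∧ (∀ l x r, T = node l x r → x ∈ S) ∧
    ∀ q ∈ ptrs T, q.2.2 ∈ S → q.1 ∈ S

/-- Cut a tree along its anchored subtree `S`. The result lists the nodes `s` of `S` in
symmetric order, each together with the (possibly empty) subtree hanging off `S` just before
`s`, and, as second component, the subtree hanging off `S` after the last node of `S`. -/
def cut (S : Finset ℕ) : BT → List (BT × ℕ) × BT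
  | nil => ([], nil)
  | node l x r =>
    if x ∈ S then ((cut S l).1 ++ ((cut S l).2, x) :: (cut S r).1, (cut S r).2)
    else ([], node l x r)

/-- The rightmost path through the listed nodes, the listed subtrees being left subtrees. -/
def spine : List (BT × ℕ) → BT
  | [] => nil
  | (h, s) :: L => node h s (spine L)

/-- The flarb of the anchored subtree `S` of `T`, with new node `r`: form `T' = node T r nil`
and `S' = S ∪ {r}`, and rearrange `S'` into a rightmost path, all hanging subtrees keeping their
shape and place in the symmetric order (the last hanging subtree, after `r`, is empty). -/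
def flarb (T : BT) (S : Finset ℕ) (r : ℕ) : BT :=
  spine (cut (insert r S) (node T r nil)).1

/-- The number of parent/child relationships that change from `T` to `T''`. -/
def cost (T T'' : BT) : ℕ := (symmDiff (ptrs T) (ptrs T'')).card

/-- `T 0, …, T n` is a sequence of `n` flarbs starting from the empty tree; the `i`-th flarb
adds the node `i`. -/
def IsFlarbSeq (n : ℕ) (T : ℕ → BT) : Prop :=
  T 0 = nil ∧ ∀ i < n, ∃ S : Finset ℕ, IsAnchored S (T i) ∧ T (i + 1) = flarb (T i) S (i + 1)

/-! ### basic lemmas -/

lemma link_fst {x : ℕ} {b : Bool} {t : BT} {q : ℕ × Bool × ℕ} (h : q ∈ link x b t) :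
    q.1 = x ∧ q.2.2 ∈ inorder t := by
  cases t with
  | nil => simp [link] at h
  | node l y r => simp only [link, Finset.mem_singleton] at h; subst h; simp [inorder]

lemma ptrs_mem {T : BT} {q : ℕ × Bool × ℕ} (h : q ∈ ptrs T) :
    q.1 ∈ inorder T ∧ q.2.2 ∈ inorder T := by
  induction T with
  | nil => simp [ptrs] at h
  | node l x r ihl ihr =>
    simp only [ptrs, Finset.mem_union] at h
    simp only [inorder, List.mem_append, List.mem_cons]
    rcases h with ((h | h) | h) | h
    · have := ihl h; exact ⟨Or.inl this.1, Or.inl this.2⟩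
    · have := ihr h; exact ⟨Or.inr (Or.inr this.1), Or.inr (Or.inr this.2)⟩
    · have := link_fst h; exact ⟨Or.inr (Or.inl this.1), Or.inl this.2⟩
    · have := link_fst h; exact ⟨Or.inr (Or.inl this.1), Or.inr (Or.inr this.2)⟩

lemma cut_none {S : Finset ℕ} {T : BT} (h : ∀ y ∈ inorder T, y ∉ S) : cut S T = ([], T) := by
  cases T with
  | nil => rfl
  | node l x r =>
    have : x ∉ S := h x (by simp [inorder])
    simp [cut, this]

lemma cut_congr {S S' : Finset ℕ} {T : BT} (h : ∀ y ∈ inorder T, (y ∈ S ↔ y ∈ S')) :
    cut S T = cut S' T := by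
  induction T with
  | nil => rfl
  | node l x r ihl ihr =>
    have hx : x ∈ S ↔ x ∈ S' := h x (by simp [inorder])
    have hl := ihl (fun y hy => h y (by simp [inorder, hy]))
    have hr := ihr (fun y hy => h y (by simp [inorder, hy]))
    by_cases hxS : x ∈ S
    · simp only [cut, if_pos hxS, if_pos (hx.1 hxS), hl, hr]
    · simp only [cut, if_neg hxS, if_neg (fun h' => hxS (hx.2 h'))]

/-! ### steps on spine lists -/

/-- The flarbs used in the construction, acting on the right spine of the current tree. -/
inductive Step : List (BT × ℕ) → ℕ → List (BT × ℕ) → ℕ → Prop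
  | stop (L : List (BT × ℕ)) (r : ℕ) : Step L r [(spine L, r)] 0
  | keep {L : List (BT × ℕ)} {r : ℕ} {L' : List (BT × ℕ)} {c : ℕ} (h : BT) (s : ℕ) :
      Step L r L' c → Step ((h, s) :: L) r ((h, s) :: L') c
  | nib {L : List (BT × ℕ)} {r : ℕ} {L' : List (BT × ℕ)} {c : ℕ} (g : BT) (x : ℕ) (t : BT)
      (s : ℕ) : Step L r L' c → Step ((node g x t, s) :: L) r ((g, x) :: (t, s) :: L') (c + 1)

lemma Step.ne_nil {L L' : List (BT × ℕ)} {r c : ℕ} (h : Step L r L' c) : L' ≠ [] := by
  cases h <;> simp

lemma Step.inorder {L L' : List (BT × ℕ)} {r c : ℕ} (h : Step L r L' c) :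
    inorder (spine L') = inorder (spine L) ++ [r] := by
  induction h with
  | stop L r => simp [spine, NotConstant.inorder]
  | keep h s _ ih => simp [spine, NotConstant.inorder, ih]
  | nib g x t s _ ih => simp [spine, NotConstant.inorder, ih]

/-- every step is realised by a set of nodes closed under parents -/
lemma Step.exists_set {L L' : List (BT × ℕ)} {r c : ℕ} (h : Step L r L' c)
    (hnd : (NotConstant.inorder (spine L)).Nodup) :
    ∃ S : Finset ℕ, S ⊆ (NotConstant.inorder (spine L)).toFinset ∧
      (∀ l x t, spine L = node l x t → 2 ≤ L'.length → x ∈ S) ∧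
      (∀ q ∈ ptrs (spine L), q.2.2 ∈ S → q.1 ∈ S) ∧
      (cut S (spine L)).1 ++ [((cut S (spine L)).2, r)] = L' := by
  induction h with
  | stop L r =>
    refine ⟨∅, Finset.empty_subset _, ?_, ?_, ?_⟩
    · intro l x t _ h2; simp at h2
    · intro q _ h; simp at h
    · rw [cut_none (fun y _ => Finset.notMem_empty y)]; rfl
  | @keep L r L' c h s hst ih =>
    simp only [spine, NotConstant.inorder] at hnd ⊢
    have hnd1 := hnd
    rw [List.nodup_append] at hnd1
    obtain ⟨hh, hsT, hdisj⟩ := hnd1
    rw [List.nodup_cons] at hsT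
    obtain ⟨S, hS1, _, hS3, hS4⟩ := ih hsT.2
    have hS1' : ∀ y ∈ S, y ∈ NotConstant.inorder (spine L) := fun y hy => by
      simpa using hS1 hy
    have hhS : ∀ y ∈ NotConstant.inorder h, y ∉ insert s S := by
      intro y hy hyS
      rcases Finset.mem_insert.1 hyS with h1 | h1
      · exact hdisj y hy s (by simp) h1
      · exact hdisj y hy y (by simp [hS1' y h1]) rfl
    have hcT : cut (insert s S) (spine L) = cut S (spine L) := by
      apply cut_congr
      intro y hy
      rw [Finset.mem_insert]
      constructor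
      · rintro (h1 | h1)
        · exact absurd (h1 ▸ hy) hsT.1
        · exact h1
      · exact Or.inr
    refine ⟨insert s S, ?_, ?_, ?_, ?_⟩
    · intro y hy
      rcases Finset.mem_insert.1 hy with h1 | h1
      · simp [h1]
      · have := hS1' y h1; simp [this]
    · intro l x t he _
      simp only [node.injEq] at he
      rw [← he.2.1]; exact Finset.mem_insert_self _ _
    · intro q hq hqS
      simp only [ptrs, Finset.mem_union] at hq
      rcases hq with ((h1 | h1) | h1) | h1
      · exact absurd hqS (hhS _ (ptrs_mem h1).2)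
      · have h2 := (ptrs_mem h1).2
        rcases Finset.mem_insert.1 hqS with h3 | h3
        · exact absurd (h3 ▸ h2) hsT.1
        · exact Finset.mem_insert_of_mem (hS3 q h1 h3)
      · rw [(link_fst h1).1]; exact Finset.mem_insert_self _ _
      · rw [(link_fst h1).1]; exact Finset.mem_insert_self _ _
    · simp only [cut, if_pos (Finset.mem_insert_self s S), cut_none hhS, hcT]
      simp [hS4]
  | @nib L r L' c g x t s hst ih =>
    simp only [spine, NotConstant.inorder] at hnd ⊢
    have hnd1 := hnd
    rw [List.nodup_append] at hnd1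
    obtain ⟨hh, hsT, hdisj⟩ := hnd1
    rw [List.nodup_cons] at hsT
    rw [List.nodup_append] at hh
    obtain ⟨hg, hxt, hdisj2⟩ := hh
    rw [List.nodup_cons] at hxt
    obtain ⟨S, hS1, _, hS3, hS4⟩ := ih hsT.2
    have hS1' : ∀ y ∈ S, y ∈ NotConstant.inorder (spine L) := fun y hy => by
      simpa using hS1 hy
    have hgS : ∀ y ∈ NotConstant.inorder g, y ∉ insert s (insert x S) := by
      intro y hy hyS
      rcases Finset.mem_insert.1 hyS with h1 | h1
      · exact hdisj y (by simp [hy]) s (by simp) h1
      · rcases Finset.mem_insert.1 h1 with h2 | h2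
        · exact hdisj2 y hy x (by simp) h2
        · exact hdisj y (by simp [hy]) y (by simp [hS1' y h2]) rfl
    have htS : ∀ y ∈ NotConstant.inorder t, y ∉ insert s (insert x S) := by
      intro y hy hyS
      rcases Finset.mem_insert.1 hyS with h1 | h1
      · exact hdisj y (by simp [hy]) s (by simp) h1
      · rcases Finset.mem_insert.1 h1 with h2 | h2
        · exact hxt.1 (h2 ▸ hy)
        · exact hdisj y (by simp [hy]) y (by simp [hS1' y h2]) rfl
    have hxL : x ∉ NotConstant.inorder (spine L) := fun hx =>
      hdisj x (by simp) x (by simp [hx]) rfl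
    have hcT : cut (insert s (insert x S)) (spine L) = cut S (spine L) := by
      apply cut_congr
      intro y hy
      rw [Finset.mem_insert, Finset.mem_insert]
      constructor
      · rintro (h1 | h1 | h1)
        · exact absurd (h1 ▸ hy) hsT.1
        · exact absurd (h1 ▸ hy) hxL
        · exact h1
      · exact fun h1 => Or.inr (Or.inr h1)
    have hsm : s ∈ insert s (insert x S) := Finset.mem_insert_self _ _
    have hxm : x ∈ insert s (insert x S) := Finset.mem_insert_of_mem (Finset.mem_insert_self _ _)
    refine ⟨insert s (insert x S), ?_, ?_, ?_, ?_⟩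
    · intro y hy
      rcases Finset.mem_insert.1 hy with h1 | h1
      · simp [h1]
      · rcases Finset.mem_insert.1 h1 with h2 | h2
        · simp [h2]
        · have := hS1' y h2; simp [this]
    · intro l x' t' he _
      simp only [node.injEq] at he
      rw [← he.2.1]; exact hsm
    · intro q hq hqS
      simp only [ptrs, Finset.mem_union] at hq
      rcases hq with (((((h1 | h1) | h1) | h1) | h1) | h1) | h1
      · exact absurd hqS (hgS _ (ptrs_mem h1).2)
      · exact absurd hqS (htS _ (ptrs_mem h1).2)
      · rw [(link_fst h1).1]; exact hxm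
      · rw [(link_fst h1).1]; exact hxm
      · have h2 := (ptrs_mem h1).2
        rcases Finset.mem_insert.1 hqS with h3 | h3
        · exact absurd (h3 ▸ h2) hsT.1
        · rcases Finset.mem_insert.1 h3 with h4 | h4
          · exact absurd (h4 ▸ h2) hxL
          · exact Finset.mem_insert_of_mem (Finset.mem_insert_of_mem (hS3 q h1 h4))
      · rw [(link_fst h1).1]; exact hsm
      · rw [(link_fst h1).1]; exact hsm
    · simp only [cut, if_pos hsm, if_pos hxm, cut_none hgS, cut_none htS, hcT]
      simp [hS4]

/-- every step destroys at least as many relationships as its cost -/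
lemma Step.exists_destroyed {L L' : List (BT × ℕ)} {r c : ℕ} (h : Step L r L' c)
    (hnd : (NotConstant.inorder (spine L) ++ [r]).Nodup) :
    ∃ D : Finset (ℕ × Bool × ℕ), D.card = c ∧ D ⊆ ptrs (spine L) ∧
      ∀ q ∈ D, q ∉ ptrs (spine L') := by
  induction h with
  | stop L r => exact ⟨∅, rfl, Finset.empty_subset _, fun q hq => by simp at hq⟩
  | @keep L r L' c h s hst ih =>
    simp only [spine, NotConstant.inorder, List.append_assoc, List.cons_append] at hnd ⊢
    rw [List.nodup_append] at hnd
    obtain ⟨hh, hsT, hdisj⟩ := hnd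
    rw [List.nodup_cons] at hsT
    obtain ⟨D, hD1, hD2, hD3⟩ := ih hsT.2
    refine ⟨D, hD1, ?_, ?_⟩
    · intro q hq
      simp only [ptrs, Finset.mem_union]
      exact Or.inl (Or.inl (Or.inr (hD2 hq)))
    · intro q hq hq'
      have hq1 := (ptrs_mem (hD2 hq)).1
      simp only [ptrs, Finset.mem_union] at hq'
      rcases hq' with ((h1 | h1) | h1) | h1
      · exact hdisj _ (ptrs_mem h1).1 q.1 (by simp [hq1]) rfl
      · exact hD3 q hq h1
      · exact hsT.1 (by rw [← (link_fst h1).1]; simp [hq1])
      · exact hsT.1 (by rw [← (link_fst h1).1]; simp [hq1])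
  | @nib L r L' c g x t s hst ih =>
    simp only [spine, NotConstant.inorder, List.append_assoc, List.cons_append] at hnd ⊢
    rw [List.nodup_append] at hnd
    obtain ⟨hg, hx, hdisj⟩ := hnd
    rw [List.nodup_cons] at hx
    obtain ⟨hx1, hx2⟩ := hx
    rw [List.nodup_append] at hx2
    obtain ⟨ht, hsT, hdisj2⟩ := hx2
    rw [List.nodup_cons] at hsT
    obtain ⟨D, hD1, hD2, hD3⟩ := ih hsT.2
    have hinL' : NotConstant.inorder (spine L') = NotConstant.inorder (spine L) ++ [r] :=
      hst.inorder
    have hnew : (s, false, x) ∉ D := by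
      intro hq
      have := (ptrs_mem (hD2 hq)).1
      exact hsT.1 (by simp only [List.mem_append]; exact Or.inl this)
    refine ⟨insert (s, false, x) D, ?_, ?_, ?_⟩
    · rw [Finset.card_insert_of_notMem hnew, hD1]
    · intro q hq
      simp only [ptrs, Finset.mem_union]
      rcases Finset.mem_insert.1 hq with h1 | h1
      · subst h1
        exact Or.inl (Or.inr (by simp [link]))
      · exact Or.inl (Or.inl (Or.inr (hD2 h1)))
    · intro q hq hq'
      simp only [ptrs, Finset.mem_union] at hq'
      rcases Finset.mem_insert.1 hq with h1 | h1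
      · subst h1
        rcases hq' with ((h2 | (((h2 | h2) | h2) | h2)) | h2) | h2
        · exact hdisj _ (ptrs_mem h2).1 s (by simp) rfl
        · exact hdisj2 _ (ptrs_mem h2).1 s (by simp) rfl
        · have h3 := (ptrs_mem h2).1
          rw [hinL'] at h3
          exact hsT.1 h3
        · have h3 := (link_fst h2).2
          exact hx1 (by simp only [List.mem_append]; exact Or.inl h3)
        · have h3 := (link_fst h2).2
          rw [hinL'] at h3
          exact hx1 (by simp only [List.mem_append, List.mem_cons] at h3 ⊢; tauto)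
        · have h3 := (link_fst h2).1
          exact hx1 (by rw [← h3]; simp)
        · have h3 := (link_fst h2).1
          exact hx1 (by rw [← h3]; simp)
      · have hq1 := (ptrs_mem (hD2 h1)).1
        rcases hq' with ((h2 | (((h2 | h2) | h2) | h2)) | h2) | h2
        · exact hdisj _ (ptrs_mem h2).1 q.1 (by simp [hq1]) rfl
        · exact hdisj2 _ (ptrs_mem h2).1 q.1 (by simp [hq1]) rfl
        · exact hD3 q h1 h2
        · exact hsT.1 (by rw [← (link_fst h2).1]; simp [hq1])
        · exact hsT.1 (by rw [← (link_fst h2).1]; simp [hq1])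
        · exact hx1 (by rw [← (link_fst h2).1]; simp [hq1])
        · exact hx1 (by rw [← (link_fst h2).1]; simp [hq1])

/-! ### runs -/

/-- `Run m L n L' c`: `n` steps with new nodes `m+1, …, m+n` lead from `L` to `L'`, of total
cost `c`. -/
inductive Run : ℕ → List (BT × ℕ) → ℕ → List (BT × ℕ) → ℕ → Prop
  | refl (m : ℕ) (L : List (BT × ℕ)) : Run m L 0 L 0
  | cons {m : ℕ} {L L1 L2 : List (BT × ℕ)} {c n c' : ℕ} :
      Step L (m + 1) L1 c → Run (m + 1) L1 n L2 c' → Run m L (n + 1) L2 (c + c')

lemma Step.context {L L' : List (BT × ℕ)} {r c : ℕ} (h : Step L r L' c)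
    (pre : List (BT × ℕ)) : Step (pre ++ L) r (pre ++ L') c := by
  induction pre with
  | nil => exact h
  | cons a pre ih => exact Step.keep a.1 a.2 ih

lemma Run.context {m n c : ℕ} {L L' : List (BT × ℕ)} (h : Run m L n L' c)
    (pre : List (BT × ℕ)) : Run m (pre ++ L) n (pre ++ L') c := by
  induction h with
  | refl m L => exact Run.refl _ _
  | cons hs _ ih => exact Run.cons (hs.context pre) ih

lemma Run.trans {m n n' c c' : ℕ} {L L' L'' : List (BT × ℕ)} (h : Run m L n L' c)
    (h' : Run (m + n) L' n' L'' c') : Run m L (n + n') L'' (c + c') := by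
  induction h with
  | refl m L => simpa using h'
  | @cons m L L1 L2 c n c1 hs _ ih =>
    have h2 := ih (by rw [show m + 1 + n = m + (n + 1) by ring]; exact h')
    have h3 := Run.cons hs h2
    rw [show n + 1 + n' = n + n' + 1 by ring, show c + c1 + c' = c + (c1 + c') by ring]
    exact h3

/-- nibble the node `R` during a whole run on the list to its right -/
lemma Run.nibble {m n c : ℕ} {L L' : List (BT × ℕ)} (h : Run m L n L' c) :
    ∀ (H1 H2 : List (BT × ℕ)) (R : ℕ), H1.length = n →
      Run m ((spine (H1 ++ H2), R) :: L) n (H1 ++ (spine H2, R) :: L') (c + n) := by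
  induction h with
  | refl m L =>
    intro H1 H2 R h0
    have : H1 = [] := List.length_eq_zero_iff.1 h0
    subst this
    exact Run.refl _ _
  | @cons m L L1 L2 c n c' hs _ ih =>
    intro H1 H2 R h0
    cases H1 with
    | nil => simp at h0
    | cons a H1 =>
      obtain ⟨g, x⟩ := a
      have h1 : H1.length = n := by simpa using h0
      have h2 := (ih H1 H2 R h1).context [(g, x)]
      have h3 : Step ((spine ((g, x) :: H1 ++ H2), R) :: L) (m + 1)
          ([(g, x)] ++ (spine (H1 ++ H2), R) :: L1) (c + 1) := Step.nib g x _ R hs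
      have h4 := Run.cons h3 h2
      have e : c + 1 + (c' + n) = c + c' + (n + 1) := by ring
      rw [e] at h4
      simpa using h4

/-- `q` idle steps -/
lemma idle (q : ℕ) : ∀ m, ∃ L', Run m [] q L' 0 := by
  induction q with
  | zero => intro m; exact ⟨[], Run.refl _ _⟩
  | succ q ih =>
    intro m
    obtain ⟨L', hL'⟩ := ih (m + 1)
    have h1 : Step [] (m + 1) [(spine [], m + 1)] 0 := Step.stop _ _
    have h2 := hL'.context [(spine [], m + 1)]
    rw [List.append_nil] at h2
    exact ⟨_, Run.cons h1 h2⟩

/-- The statement proved by induction on `k`: rate at least `k/2` is attained. -/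
def Rate (k : ℕ) : Prop :=
  ∃ N, 1 ≤ N ∧ ∀ m, ∃ L' c, Run m [] N L' c ∧ k * N ≤ 2 * c

lemma long_run (k N : ℕ) (hN : 1 ≤ N) (h : ∀ m, ∃ L' c, Run m [] N L' c ∧ k * N ≤ 2 * c)
    (q : ℕ) : ∀ m, ∃ L' c, Run m [] q L' c ∧ k * q ≤ 2 * c + k * N := by
  induction q using Nat.strong_induction_on with
  | _ q ih =>
    intro m
    by_cases hq : q < N
    · obtain ⟨L', hL'⟩ := idle q m
      exact ⟨L', 0, hL', by
        have := Nat.mul_le_mul_left k hq.le
        omega⟩
    · push Not at hq
      obtain ⟨L1, c1, h1, h1'⟩ := h m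
      obtain ⟨L2, c2, h2, h2'⟩ := ih (q - N) (by omega) (m + N)
      have h3 := h2.context L1
      rw [List.append_nil] at h3
      have h4 := h1.trans h3
      refine ⟨L1 ++ L2, c1 + c2, ?_, ?_⟩
      · rw [show q = N + (q - N) by omega]; exact h4
      · have : k * q = k * N + k * (q - N) := by rw [← Nat.mul_add]; congr 1; omega
        rw [this]; omega

lemma epochs (k N : ℕ) (hN : 1 ≤ N) (h : ∀ m, ∃ L' c, Run m [] N L' c ∧ k * N ≤ 2 * c)
    (E : ℕ) : ∀ m, ∃ L c, Run m [] (E * (E + 1) / 2) L c ∧ E ≤ L.length ∧
      (k + 2) * (E * (E + 1) / 2) ≤ 2 * c + E * (k * N + (k + 2)) := by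
  induction E with
  | zero => intro m; exact ⟨[], 0, Run.refl _ _, by simp, by simp⟩
  | succ E ih =>
    intro m
    obtain ⟨L, c, h1, h2, h3⟩ := ih m
    set B := E * (E + 1) / 2 with hB
    have hB' : (E + 1) * (E + 1 + 1) / 2 = B + (1 + E) := by
      have e : (E + 1) * (E + 1 + 1) = E * (E + 1) + (1 + E) * 2 := by ring
      rw [e, Nat.add_mul_div_right _ _ (by norm_num)]
    obtain ⟨L', c', h4, h5⟩ := long_run k N hN h E (m + B + 1)
    -- adoption step
    have hs : Step L (m + B + 1) [(spine L, m + B + 1)] 0 := Step.stop _ _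
    have hn := h4.nibble (L.take E) (L.drop E) (m + B + 1) (by simp [h2])
    rw [List.take_append_drop] at hn
    have hr := h1.trans (Run.cons hs hn)
    refine ⟨L.take E ++ (spine (L.drop E), m + B + 1) :: L', c + (0 + (c' + E)), ?_, ?_, ?_⟩
    · rw [hB', Nat.add_comm 1 E]; exact hr
    · simp [h2]
    · rw [hB']
      have e1 : (k + 2) * (B + (1 + E)) = (k + 2) * B + (k + 2) + k * E + 2 * E := by ring
      have e2 : (E + 1) * (k * N + (k + 2)) = E * (k * N + (k + 2)) + (k * N + (k + 2)) := by ring
      rw [e1, e2]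
      omega

lemma rate (k : ℕ) : Rate k := by
  induction k with
  | zero =>
    refine ⟨1, le_rfl, fun m => ?_⟩
    obtain ⟨L', h⟩ := idle 1 m
    exact ⟨L', 0, h, by simp⟩
  | succ k ih =>
    obtain ⟨N, hN, h⟩ := ih
    set E := 2 * (k * N + (k + 2)) with hE
    have hE1 : 1 ≤ E := by omega
    refine ⟨E * (E + 1) / 2, ?_, fun m => ?_⟩
    · rw [Nat.one_le_div_iff (by norm_num)]
      nlinarith
    · obtain ⟨L, c, h1, _, h3⟩ := epochs k N hN h E m
      refine ⟨L, c, h1, ?_⟩
      have h4 : E * (k * N + (k + 2)) ≤ E * (E + 1) / 2 := by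
        rw [Nat.le_div_iff_mul_le (by norm_num)]
        have : E * (k * N + (k + 2)) * 2 = E * E := by rw [hE]; ring
        rw [this]
        exact Nat.mul_le_mul_left E (Nat.le_succ E)
      have e : (k + 2) * (E * (E + 1) / 2) = (k + 1) * (E * (E + 1) / 2) + E * (E + 1) / 2 := by
        ring
      omega

/-! ### realisation as flarb sequences -/

/-- after `m` flarbs the tree is `T` and the total cost is at least `c` -/
def Real (m : ℕ) (T : BT) (c : ℕ) : Prop :=
  ∃ f : ℕ → BT, IsFlarbSeq m f ∧ f m = T ∧ c ≤ ∑ i ∈ Finset.range m, cost (f i) (f (i + 1))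

lemma Real.succ {m : ℕ} {T T' : BT} {c d : ℕ} (h : Real m T c)
    (hS : ∃ S : Finset ℕ, IsAnchored S T ∧ T' = flarb T S (m + 1)) (hd : d ≤ cost T T') :
    Real (m + 1) T' (c + d) := by
  obtain ⟨f, ⟨hf0, hf1⟩, hfm, hfc⟩ := h
  have hne : ∀ i, i ≤ m → Function.update f (m + 1) T' i = f i := by
    intro i hi
    rw [Function.update_of_ne (by omega)]
  have hself : Function.update f (m + 1) T' (m + 1) = T' := Function.update_self _ _ _
  refine ⟨Function.update f (m + 1) T', ⟨?_, ?_⟩, hself, ?_⟩
  · rw [hne 0 (Nat.zero_le _)]; exact hf0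
  · intro i hi
    rcases Nat.lt_succ_iff_lt_or_eq.1 hi with h1 | h1
    · rw [hne i h1.le, hne (i + 1) h1]; exact hf1 i h1
    · subst h1
      rw [hne i le_rfl, hself, hfm]; exact hS
  · rw [Finset.sum_range_succ, hne m le_rfl, hself, hfm]
    apply add_le_add _ hd
    refine hfc.trans (le_of_eq ?_)
    apply Finset.sum_congr rfl
    intro i hi
    have := Finset.mem_range.1 hi
    rw [hne i (by omega), hne (i + 1) (by omega)]

lemma flarb_eq {T : BT} {S : Finset ℕ} {r : ℕ} (hr : r ∉ inorder T) :
    flarb T S r = spine ((cut S T).1 ++ [((cut S T).2, r)]) := by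
  unfold flarb
  have h1 : cut (insert r S) T = cut S T := by
    apply cut_congr
    intro y hy
    rw [Finset.mem_insert]
    constructor
    · rintro (h | h)
      · exact absurd (h ▸ hy) hr
      · exact h
    · exact Or.inr
  simp only [cut, if_pos (Finset.mem_insert_self r S), h1]

lemma Run.real {m n c : ℕ} {L L' : List (BT × ℕ)} (h : Run m L n L' c) :
    ∀ c0, Real m (spine ((nil, 1) :: L)) c0 →
      inorder (spine ((nil, 1) :: L)) = List.range' 1 m →
      Real (m + n) (spine ((nil, 1) :: L')) (c0 + c) := by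
  induction h with
  | refl m L => intro c0 h _; simpa using h
  | @cons m L L1 L2 c n c' hs _ ih =>
    intro c0 h0 hin
    have hs' : Step ((nil, 1) :: L) (m + 1) ((nil, 1) :: L1) c := Step.keep _ _ hs
    have hin' : inorder (spine ((nil, 1) :: L1)) = List.range' 1 (m + 1) := by
      rw [hs'.inorder, hin, List.range'_concat]; simp [Nat.add_comm]
    have hnd1 : (inorder (spine ((nil, 1) :: L))).Nodup := by rw [hin]; exact List.nodup_range'
    have hnd2 : (inorder (spine ((nil, 1) :: L)) ++ [m + 1]).Nodup := by
      rw [← hs'.inorder, hin']; exact List.nodup_range'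
    have hr : m + 1 ∉ inorder (spine ((nil, 1) :: L)) := by
      rw [hin, List.mem_range'_1]; omega
    obtain ⟨S, hS1, hS2, hS3, hS4⟩ := hs'.exists_set hnd1
    obtain ⟨D, hD1, hD2, hD3⟩ := hs'.exists_destroyed hnd2
    have hlen : 2 ≤ ((nil, 1) :: L1 : List (BT × ℕ)).length := by
      have := List.length_pos_iff.2 hs.ne_nil
      simp; omega
    have hreal : Real (m + 1) (spine ((nil, 1) :: L1)) (c0 + c) := by
      apply h0.succ
      · refine ⟨S, ⟨hS1, fun l x t he => hS2 l x t he hlen, hS3⟩, ?_⟩
        rw [flarb_eq hr, hS4]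
      · rw [← hD1]
        apply Finset.card_le_card
        intro q hq
        rw [Finset.mem_symmDiff]
        exact Or.inl ⟨hD2 hq, hD3 q hq⟩
    have h5 := ih (c0 + c) hreal hin'
    rw [show m + (n + 1) = m + 1 + n by ring, show c0 + (c + c') = c0 + c + c' by ring]
    exact h5

lemma result_nat : ∀ C : ℕ, ∃ (n : ℕ) (T : ℕ → BT), IsFlarbSeq n T ∧
    C * n < ∑ i ∈ Finset.range n, cost (T i) (T (i + 1)) := by
  intro C
  obtain ⟨N, hN, h⟩ := rate (4 * C + 2)
  obtain ⟨L', c, h1, h2⟩ := h 1
  have h0 : Real 1 (spine ((nil, 1) :: [])) 0 := by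
    have hz : Real 0 nil 0 := ⟨fun _ => nil, ⟨rfl, fun i hi => absurd hi (Nat.not_lt_zero i)⟩,
      rfl, le_rfl⟩
    have := hz.succ (T' := spine ((nil, 1) :: [])) (d := 0) ⟨∅, ⟨Finset.empty_subset _,
      fun l x r he => by simp at he, fun q hq => by simp [ptrs] at hq⟩, by
        simp [flarb, cut, spine]⟩ (Nat.zero_le _)
    simpa using this
  obtain ⟨f, hf1, _, hf3⟩ := h1.real 0 h0 (by simp [spine, inorder])
  refine ⟨1 + N, f, hf1, lt_of_lt_of_le ?_ hf3⟩
  nlinarith

/-- **The amortized number of pointer changes per flarb is unbounded.** For every constant `C`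
there are `n` and a sequence of `n` flarbs from the empty tree whose total number of changed
parent/child relationships exceeds `C n`. -/
theorem result : ∀ C : ℝ, ∃ (n : ℕ) (T : ℕ → BT), IsFlarbSeq n T ∧
    C * (n : ℝ) < ((∑ i ∈ Finset.range n, cost (T i) (T (i + 1)) : ℕ) : ℝ) := by
  intro C
  obtain ⟨n, T, h1, h2⟩ := result_nat ⌈C⌉₊
  refine ⟨n, T, h1, ?_⟩
  calc C * (n : ℝ) ≤ (⌈C⌉₊ : ℝ) * (n : ℝ) :=
        mul_le_mul_of_nonneg_right (Nat.le_ceil C) (Nat.cast_nonneg n)
    _ = ((⌈C⌉₊ * n : ℕ) : ℝ) := by push_cast; ring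
    _ < _ := by exact_mod_cast h2

end Pool.Agent.Results.MP_5c307f_lc.NotConstant
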