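import Pool.Agent.R42.FL.Main

namespace Pool.Agent.Results.MP_5c307f_lc.Superlinear

open Pool.Agent.R42.FL

/-- The answer to Q1 is negative: for every `k` there is a sequence of `n = 2^k` flarbs, starting
from the empty tree, whose total number of pointer changes is more than `(k / 2 - 1) * n`, that is,
more than `(log_2 n / 2 - 1) * n`. In particular no constant `C` bounds the total by `C n`. -/
theorem result (k : ℕ) : ∃ S : ℕ → Finset ℕ,
    (∀ i < 2 ^ k, BT.Anchored (S i) (trees S i)) ∧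
    ((k : ℝ) / 2 - 1) * 2 ^ k <
      ((∑ i ∈ Finset.range (2 ^ k), cost (trees S i) (trees S (i + 1)) : ℕ) : ℝ) := by
  obtain ⟨S, h1, h2⟩ := many_changes k
  refine ⟨S, h1, ?_⟩
  have h3 : ((k * 2 ^ k + 2 : ℕ) : ℝ) ≤
      ((2 * ∑ i ∈ Finset.range (2 ^ k), cost (trees S i) (trees S (i + 1)) + 2 * 2 ^ k : ℕ) : ℝ) := by
    exact_mod_cast h2
  push_cast at h3 ⊢
  linarith

end Pool.Agent.Results.MP_5c307f_lc.Superlinear
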